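import Pool.Agent.Lib.MP_2915c1_al.Pairs

set_option autoImplicit false

namespace Pool.Agent.Results.MP_2915c1_al.BaireDichotomy

open MeasureTheory Pool.Agent.MP_2915c1_al

/-- Baire dichotomy for the spectral gap of pairs of rotations: either the pairs with a spectral
gap are meagre (and so are the `m`-tuples with a spectral gap, for every `m`), or every finite
symmetric set generating a dense subgroup has a spectral gap, and then the pairs with a spectral
gap are comeagre and conull. -/
theorem result :
    (IsMeagre {p : SO3 × SO3 | HasSpectralGap (pairSet p.1 p.2)} ∧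
      ∀ m : ℕ, IsMeagre {x : Fin m → SO3 | HasSpectralGap (tupleSet x)}) ∨
    ((∀ S : Finset SO3, (∀ s ∈ S, s⁻¹ ∈ S) →
        Dense ((Subgroup.closure (S : Set SO3) : Subgroup SO3) : Set SO3) → HasSpectralGap S) ∧
      {p : SO3 × SO3 | HasSpectralGap (pairSet p.1 p.2)} ∈ residual (SO3 × SO3) ∧
      ∀ᵐ p ∂(haar.prod haar), HasSpectralGap (pairSet p.1 p.2)) := by
  by_cases h : IsMeagre {p : SO3 × SO3 | HasSpectralGap (pairSet p.1 p.2)} ∧
      ∀ m : ℕ, IsMeagre {x : Fin m → SO3 | HasSpectralGap (tupleSet x)}
  · exact Or.inl h
  · right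
    have key : ∀ S : Finset SO3,
        Dense ((Subgroup.closure (S : Set SO3) : Subgroup SO3) : Set SO3) →
        HasSpectralGap S := by
      intro S hS
      rw [not_and_or] at h
      rcases h with h | h
      · exact gap_of_pairs h S hS
      · rw [not_forall] at h
        obtain ⟨m, hm⟩ := h
        exact gap_of_tuples hm S hS
    have hsub : ∀ p ∈ denseGen, HasSpectralGap (pairSet p.1 p.2) := by
      intro p hp
      apply key
      rw [closure_pairSet]
      exact hp
    exact ⟨fun S _ hS => key S hS, Filter.mem_of_superset denseGen_residual hsub,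
      denseGen_ae.mono hsub⟩

end Pool.Agent.Results.MP_2915c1_al.BaireDichotomy
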