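import Pool.Agent.Lib.MP_2915c1_al.ConjThm

set_option autoImplicit false

namespace Pool.Agent.Results.MP_2915c1_al.ConjugacyClasses

open MeasureTheory Pool.Agent.MP_2915c1_al

/-- For every two rotations `a, b` (no exception): the set of `g` for which the pair
`a, g b g⁻¹` has a spectral gap is null or conull; and this set is meagre unless every finite
symmetric set which generates a dense subgroup meeting the conjugacy classes of `a` and of `b` has
a spectral gap. -/
theorem result (a b : SO3) :
    ((∀ᵐ g ∂haar, HasSpectralGap (pairSet a (g * b * g⁻¹))) ∨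
      (∀ᵐ g ∂haar, ¬ HasSpectralGap (pairSet a (g * b * g⁻¹)))) ∧
    (IsMeagre {g : SO3 | HasSpectralGap (pairSet a (g * b * g⁻¹))} ∨
      ∀ S : Finset SO3, (∀ s ∈ S, s⁻¹ ∈ S) →
        Dense ((Subgroup.closure (S : Set SO3) : Subgroup SO3) : Set SO3) →
        (∃ h : SO3, h * a * h⁻¹ ∈ Subgroup.closure (S : Set SO3)) →
        (∃ k : SO3, k * b * k⁻¹ ∈ Subgroup.closure (S : Set SO3)) → HasSpectralGap S) := by
  refine ⟨law_one a b, ?_⟩
  by_cases hn : IsMeagre {g : SO3 | HasSpectralGap (pairSet a (g * b * g⁻¹))}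
  · exact Or.inl hn
  · right
    rintro S _ hS ⟨h, hh⟩ ⟨k, hk⟩
    exact law_three a b hn S hS h k hh hk

end Pool.Agent.Results.MP_2915c1_al.ConjugacyClasses
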