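import Pool.Agent.Lib.MP_2915c1_al.ConjThm

set_option autoImplicit false

namespace Pool.Agent.Results.MP_2915c1_al.EveryRotation

open MeasureTheory Pool.Agent.MP_2915c1_al

/-- For every rotation `a` (no exception): the set of `b` for which `a, b` has a spectral gap is
null or conull, and it is meagre unless every finite symmetric set which generates a dense subgroup
meeting the conjugacy class of `a` has a spectral gap. The set of pairs with a spectral gap is null
or conull. -/
theorem result :
    (∀ a : SO3, (∀ᵐ b ∂haar, HasSpectralGap (pairSet a b)) ∨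
      (∀ᵐ b ∂haar, ¬ HasSpectralGap (pairSet a b))) ∧
    (∀ a : SO3, IsMeagre {b : SO3 | HasSpectralGap (pairSet a b)} ∨
      ∀ S : Finset SO3, (∀ s ∈ S, s⁻¹ ∈ S) →
        Dense ((Subgroup.closure (S : Set SO3) : Subgroup SO3) : Set SO3) →
        (∃ h : SO3, h * a * h⁻¹ ∈ Subgroup.closure (S : Set SO3)) → HasSpectralGap S) ∧
    ((∀ᵐ p ∂(haar.prod haar), HasSpectralGap (pairSet p.1 p.2)) ∨
      (∀ᵐ p ∂(haar.prod haar), ¬ HasSpectralGap (pairSet p.1 p.2))) := by
  refine ⟨law_two, fun a => ?_, ?_⟩
  · by_cases hn : IsMeagre {b : SO3 | HasSpectralGap (pairSet a b)}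
    · exact Or.inl hn
    · right
      rintro S _ hS ⟨h, hh⟩
      exact law_four a hn S hS h hh
  · have hsymm : ∀ a b : SO3, HasSpectralGap (pairSet a b) ↔ HasSpectralGap (pairSet b a) := by
      have h1 : ∀ a b : SO3, HasSpectralGap (pairSet a b) → HasSpectralGap (pairSet b a) :=
        fun a b h => gap_pair_mono _ _ _ _ (Subgroup.subset_closure (by simp))
          (Subgroup.subset_closure (by simp)) h
      exact fun a b => ⟨h1 a b, h1 b a⟩
    have hne : (ae haar).NeBot := inferInstance
    have h := combine haar haar {p : SO3 × SO3 | HasSpectralGap (pairSet p.1 p.2)}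
      measurableSet_gapPairs
      (Filter.Eventually.of_forall fun a => (law_two a).symm)
      (Filter.Eventually.of_forall fun b => by
        have := (law_two b).symm
        simp only [Set.mem_ofPred_eq, hsymm _ b]
        exact this)
    exact h.symm

end Pool.Agent.Results.MP_2915c1_al.EveryRotation
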